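import Pool.Agent.J6H12.RW.Ideal
import Pool.Agent.J6H12.RW.Lower

/-!
# General unions of quasimonomial collisions: all real weights at once

Let `s` general smooth germs `y = ξ_l(x)` of the plane be given, over any field of characteristic
zero, and let `v_l` be the quasimonomial valuation with weight `1` on `x - x_l` and real weight
`t_l ≥ 0` on `y - ξ_l(x)`. We prove

  `v_1(f) + ... + v_s(f) ≤ deg f * √(t_1 + ... + t_s)`

for all nonzero forms `f` and all real weights of sum at least nine, with strict inequality if the sum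
of the weights is an integer larger than nine and `f` is not constant. In each degree one
hypersurface in the space of the germs has to be avoided, for all real weights at the same time; germs
with algebraically independent coefficients satisfy the inequality in all degrees. The constant is
optimal for every choice of the germs.

* integral weights `t_l = r_l`: general unions of the collisions `(y - q_l, (x - c_l) ^ r_l) ^ m` of
  fat points, in particular Q1 (`s = 1`, `d ≤ m √r`, the boundary case included);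
* all `t_l = 1`: Nagata's inequality for `s ≥ 9` general points;
* `s = 1`: Nagata's conjecture for very general quasimonomial valuations (starting result of
  MP_dd8059_ag).

The starting results have integral weights (several germs) or one germ (real weights). The new part
is the case of several germs with arbitrary real weights. The proof lets the germs collide on one
curve.
-/

set_option autoImplicit false

namespace Pool.Agent.Results.MP_cea741_ag.RealWeights

universe u

/-- The expansion `f(x₀ + X, ∑ a_k X ^ k + Y, 1)` of the form `f(x, y, z)` along the germ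
`y = ∑ a_k (x - x₀) ^ k`, as a polynomial in `Y` over `K⟦X⟧`. -/
noncomputable def expansion {K : Type u} [Field K] (x₀ : K) (a : ℕ → K)
    (f : MvPolynomial (Fin 3) K) : Polynomial (PowerSeries K) :=
  MvPolynomial.aeval
    (![Polynomial.C (PowerSeries.C x₀ + PowerSeries.X),
       Polynomial.C (PowerSeries.mk a) + Polynomial.X,
       1] : Fin 3 → Polynomial (PowerSeries K)) f

/-- The monomial `X ^ i Y ^ j` occurs in the expansion. -/
def Occurs {K : Type u} [Field K] (x₀ : K) (a : ℕ → K) (f : MvPolynomial (Fin 3) K)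
    (i j : ℕ) : Prop :=
  PowerSeries.coeff i ((expansion x₀ a f).coeff j) ≠ 0

/-- `v` is the value at `f` of the quasimonomial valuation with weight `1` on `x - x₀` and weight
`t` on `y - ∑ a_k (x - x₀) ^ k`: the least `i + t j` such that `X ^ i Y ^ j` occurs. -/
def IsValue {K : Type u} [Field K] (t : ℝ) (x₀ : K) (a : ℕ → K) (f : MvPolynomial (Fin 3) K)
    (v : ℝ) : Prop :=
  IsLeast {w : ℝ | ∃ i j : ℕ, Occurs x₀ a f i j ∧ w = (i : ℝ) + t * (j : ℝ)} v

/-- The bound in degree `d` for the germs with the parameters `p` (`p l 0` is the first coordinate of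
the point, `p l (k + 1)`, `k = 0, 1, ...`, are the coefficients of the germ), for all real weights
`t l ≥ 0` with sum at least nine: `∑ v_l(f) ≤ d √(∑ t_l)` for all nonzero forms of degree `d`, and
`<` if `d ≥ 1` and the sum of the weights is an integer larger than nine. -/
def Bound {K : Type u} [Field K] {s : ℕ} (p : Fin s → ℕ → K) (d : ℕ) : Prop :=
  ∀ t : Fin s → ℝ, (∀ l, 0 ≤ t l) → 9 ≤ ∑ l, t l →
    ∀ f : MvPolynomial (Fin 3) K, f.IsHomogeneous d → f ≠ 0 →
      ∃ v : Fin s → ℝ, (∀ l, IsValue (t l) (p l 0) (fun k => p l (k + 1)) f (v l)) ∧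
        ∑ l, v l ≤ d * √(∑ l, t l) ∧
        (1 ≤ d → (∃ n : ℕ, 9 < n ∧ (n : ℝ) = ∑ l, t l) → ∑ l, v l < d * √(∑ l, t l))

open Polynomial in
/-- The ideal generated by `(y - q(x)) ^ j (x - c) ^ ⌈w - t j⌉`, `j = 0, 1, 2, ...` (negative
exponents are replaced by zero), of `k[x][y]`, where `q = ∑ a_j x ^ j`, `j < r`. -/
noncomputable def collision {K : Type u} [Field K] {r : ℕ} (t w : ℝ) (c : K) (a : Fin r → K) :
    Ideal K[X][X] :=
  Ideal.span (Set.range fun j : ℕ =>
    (X - C (∑ i : Fin r, C (a i) * X ^ (i : ℕ))) ^ j * C ((X - C c) ^ ⌈w - t * j⌉₊))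

open Polynomial in
/-- the polynomial `P(x, y, 1)` of `k[x][y]` -/
noncomputable def affine {K : Type u} [Field K] (P : MvPolynomial (Fin 3) K) : K[X][X] :=
  MvPolynomial.aeval ![C X, X, 1] P

/-- the list of all the parameters `c_l, a_l0, ..., a_l(r_l-1)` -/
def parameters {K : Type u} {s : ℕ} {r : Fin s → ℕ} (c : Fin s → K)
    (a : (l : Fin s) → Fin (r l) → K) (q : (l : Fin s) × Fin (r l + 1)) : K :=
  (Fin.cons (c q.1) (a q.1) : Fin (r q.1 + 1) → K) q.2

/-- existence of the value and comparison with any occurring monomial -/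
theorem exists_value {K : Type u} [Field K] {t : ℝ} {x₀ : K} {a : ℕ → K}
    {f : MvPolynomial (Fin 3) K} {i j : ℕ} (h : Occurs x₀ a f i j) :
    ∃ v, IsValue t x₀ a f v ∧ v ≤ (i : ℝ) + t * j := by
  have hne : expansion x₀ a f ≠ 0 := by
    intro h0
    apply h
    rw [h0]
    simp
  obtain ⟨m, hm, hmin⟩ := Pool.Agent.J6H12.RW.exists_least hne t
  refine ⟨(m.1 : ℝ) + t * m.2, ⟨⟨m.1, m.2, hm, rfl⟩, ?_⟩, hmin i j h⟩
  rintro w ⟨i', j', h', rfl⟩
  exact hmin i' j' h'

/-- **General unions of quasimonomial collisions lie on no curves of small degree.**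

(1) In each degree there is one hypersurface, with rational coefficients, in the space of the germs,
outside which the bound holds, over all fields of characteristic zero.
(2) Germs with algebraically independent coefficients satisfy the bound in all degrees.
(3) The bound is optimal for all germs over all fields: for all large `d` there are nonzero forms with
values at least `(1 - ε) d t_l / √(∑ t_l)` at all germs.
(4) The statement for ideals: for real numbers `0 ≤ t_l ≤ r_l`, `w_l` there are no nonzero forms of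
degree `d` in the ideals of the collisions with general parameters if `∑ t_l ≥ 9` and
`d √(∑ t_l) < ∑ w_l`, or if `∑ t_l > 9` is an integer and `d √(∑ t_l) ≤ ∑ w_l`, `0 < ∑ w_l`.
(5) For integers `t = r` and `w = r m` the ideal is `(y - q, (x - c) ^ r) ^ m`. So Q1 in
characteristic zero is the case `s = 1` of (4). -/
theorem result :
    (∀ s d : ℕ, ∃ F : MvPolynomial (Fin s × ℕ) ℚ, F ≠ 0 ∧
      ∀ (K : Type u) [Field K] [CharZero K] (p : Fin s → ℕ → K),
        MvPolynomial.aeval (fun q : Fin s × ℕ => p q.1 q.2) F ≠ 0 → Bound p d) ∧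
    (∀ (s : ℕ) (K : Type u) [Field K] [CharZero K] (p : Fin s → ℕ → K),
      AlgebraicIndependent ℚ (fun q : Fin s × ℕ => p q.1 q.2) → ∀ d : ℕ, Bound p d) ∧
    (∀ (s : ℕ) (K : Type u) [Field K] (p : Fin s → ℕ → K) (t : Fin s → ℝ), (∀ l, 0 ≤ t l) →
      0 < ∑ l, t l → ∀ ε : ℝ, 0 < ε → ∃ D : ℕ, ∀ d : ℕ, D ≤ d →
        ∃ f : MvPolynomial (Fin 3) K, f.IsHomogeneous d ∧ f ≠ 0 ∧
          ∀ l i j, Occurs (p l 0) (fun k => p l (k + 1)) f i j →
            (1 - ε) * (d * t l / √(∑ l, t l)) ≤ i + t l * j) ∧
    (∀ (s d : ℕ) (r : Fin s → ℕ) (t w : Fin s → ℝ), (∀ l, 0 ≤ t l) → (∀ l, t l ≤ r l) →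
      (9 ≤ ∑ l, t l ∧ (d : ℝ) * √(∑ l, t l) < ∑ l, w l) ∨
        (0 < ∑ l, w l ∧ (∃ n : ℕ, 9 < n ∧ (n : ℝ) = ∑ l, t l) ∧
          (d : ℝ) * √(∑ l, t l) ≤ ∑ l, w l) →
      ∀ (K : Type u) [Field K] [CharZero K],
        ∃ F : MvPolynomial ((l : Fin s) × Fin (r l + 1)) K, F ≠ 0 ∧
          ∀ (c : Fin s → K) (a : (l : Fin s) → Fin (r l) → K),
            MvPolynomial.eval (parameters c a) F ≠ 0 →
            ∀ P : MvPolynomial (Fin 3) K, P.IsHomogeneous d →
              (∀ l, affine P ∈ collision (t l) (w l) (c l) (a l)) → P = 0) ∧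
    (∀ (K : Type u) [Field K] (r m : ℕ) (c : K) (a : Fin r → K),
      collision (r : ℝ) ((r : ℝ) * m) c a =
        Ideal.span {Polynomial.X - Polynomial.C (∑ j : Fin r, Polynomial.C (a j) *
          Polynomial.X ^ (j : ℕ)), Polynomial.C ((Polynomial.X - Polynomial.C c) ^ r)} ^ m) := by
  have key : ∀ s d : ℕ, ∃ F : MvPolynomial (Fin s × ℕ) ℚ, F ≠ 0 ∧
      ∀ (K : Type u) [Field K] [CharZero K] (p : Fin s → ℕ → K),
        MvPolynomial.aeval (fun q : Fin s × ℕ => p q.1 q.2) F ≠ 0 → Bound p d := by
    intro s d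
    obtain ⟨F, hF, h⟩ := Pool.Agent.J6H12.RW.main.{u} s d
    refine ⟨F, hF, fun K _ _ p hp t ht0 ht f hf hf0 => ?_⟩
    obtain ⟨m, hm, hle, hlt⟩ := h K p hp t ht0 ht f hf hf0
    choose v hv hvm using fun l => exists_value (t := t l) (hm l)
    refine ⟨v, hv, (Finset.sum_le_sum fun l _ => hvm l).trans hle, fun h1 h2 => ?_⟩
    exact (Finset.sum_le_sum fun l _ => hvm l).trans_lt (hlt h1 h2)
  refine ⟨key, ?_, ?_, ?_, ?_⟩
  · intro s K _ _ p hp d
    obtain ⟨F, hF, h⟩ := key s d
    refine h K p fun h0 => hF ?_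
    exact hp (by rw [h0, map_zero])
  · intro s K _ p t ht0 hT ε hε
    exact Pool.Agent.J6H12.RW.lower p ht0 hT hε
  · intro s d r t w ht0 htr h K _ _
    have h' : Pool.Agent.J6H12.RW.Cnd d (∑ l, t l) (∑ l, w l) := by
      rcases h with h | ⟨hw, hn, hle⟩
      · exact Or.inl h
      · rcases Nat.eq_zero_or_pos d with rfl | hd
        · obtain ⟨n, hn, hnT⟩ := hn
          refine Or.inl ⟨?_, by simpa using hw⟩
          rw [← hnT]
          exact_mod_cast hn.le
        · exact Or.inr ⟨hd, hn, hle⟩
    obtain ⟨F, hF, hF'⟩ := Pool.Agent.J6H12.RW.ideals.{u} ht0 htr h' K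
    refine ⟨F, hF, fun c a hc P hP hmem => ?_⟩
    exact hF' c a hc P ((MvPolynomial.mem_homogeneousSubmodule _ _).2 hP)
      (Pool.Agent.J6H44.UC.mem_jets_iff.2 hmem)
  · intro K _ r m c a
    have h1 : (fun k => ∑ _j : Fin r, (m - k)) = fun j : ℕ => ⌈(r : ℝ) * m - r * j⌉₊ := by
      funext k
      rw [Finset.sum_const, Finset.card_univ, Fintype.card_fin, smul_eq_mul]
      rcases Nat.le_total k m with h | h
      · have h2 : (r : ℝ) * m - r * k = ((r * (m - k) : ℕ) : ℝ) := by
          push_cast [Nat.cast_sub h]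
          ring
        rw [h2, Nat.ceil_natCast]
      · rw [Nat.sub_eq_zero_of_le h, mul_zero]
        symm
        rw [Nat.ceil_eq_zero]
        have h2 : (m : ℝ) ≤ k := by exact_mod_cast h
        have := mul_le_mul_of_nonneg_left h2 (Nat.cast_nonneg (α := ℝ) r)
        linarith
    have h2 := Pool.Agent.J6H44.UC.MI_equal r m c
      (∑ j : Fin r, Polynomial.C (a j) * Polynomial.X ^ (j : ℕ))
    rw [h1] at h2
    exact h2

end Pool.Agent.Results.MP_cea741_ag.RealWeights
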