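import Pool.Agent.J6H44.UC.Main

/-!
# General collisions of fat points with arbitrary, unequal multiplicities

Let `m_1, ..., m_r` be natural numbers. The fat points of multiplicities `m_1, ..., m_r` of a smooth
curve germ collide to the monomial scheme with the ideal generated by
`y ^ t x ^ (∑ j, max (m_j - t) 0)`, `t = 0, 1, 2, ...`; for equal multiplicities this is the ideal
`(y, x ^ r) ^ m` of the problem (first part of the theorem). Consider `s` such collisions, of
`r_1, ..., r_s` points with multiplicities `m_ij`, on the graphs of general polynomials `q_i` of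
degree less than `r_i` at general points `x = c_i`, and let `n = r_1 + ... + r_s > 9`. Over every
field of any characteristic the union `Y` of these schemes lies on no curve of degree `d` with
`d √n ≤ ∑ m_ij` (second part). For `n = 9` the same is true for `3 d < ∑ m_ij`.

* `s = 1` and all `m_ij = m` is Q1.
* `s = 1` is the statement of Q1 for the general collision of `r > 9` fat points with arbitrary
  multiplicities: no curve of degree `d ≤ (m_1 + ... + m_r) / √r`.
* all `r_i = 1` is Nagata's inequality for general points with arbitrary multiplicities.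

The starting result `SeveralCollisions` is the case in which all points of one germ have the same
multiplicity. The new part is a version of the whole argument (toric degeneration, flattening, tube)
for products of different curvilinear ideals of a germ instead of powers of one such ideal.
-/

set_option autoImplicit false

namespace Pool.Agent.Results.MP_cea741_ag.UnequalMultiplicities

open Polynomial

universe u

/-- the ideal generated by `(y - q(x)) ^ t (x - c) ^ (∑ j, max (m j - t) 0)`, `t = 0, 1, 2, ...`,
of `k[x][y]`, where `q = ∑ a_j x ^ j`, `j < r` -/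
noncomputable def collision {k : Type u} [Field k] {r : ℕ} (m : Fin r → ℕ) (c : k)
    (a : Fin r → k) : Ideal k[X][X] :=
  Ideal.span (Set.range fun t : ℕ =>
    (X - C (∑ j : Fin r, C (a j) * X ^ (j : ℕ))) ^ t * C ((X - C c) ^ ∑ j : Fin r, (m j - t)))

/-- the polynomial `P(x, y, 1)` of `k[x][y]` -/
noncomputable def affine {k : Type u} [Field k] (P : MvPolynomial (Fin 3) k) : k[X][X] :=
  MvPolynomial.aeval ![C X, X, 1] P

/-- the list of all the parameters `c_i, a_i0, ..., a_i(r_i-1)` -/
def parameters {k : Type u} {s : ℕ} {r : Fin s → ℕ} (c : Fin s → k)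
    (a : (i : Fin s) → Fin (r i) → k) (q : (i : Fin s) × Fin (r i + 1)) : k :=
  (Fin.cons (c q.1) (a q.1) : Fin (r q.1 + 1) → k) q.2

/-- General unions of collisions of fat points of arbitrary multiplicities lie on no curve of degree
at most the sum of the multiplicities divided by the square root of the number of points. -/
theorem result :
    (∀ (k : Type u) [Field k] (r m : ℕ) (c : k) (a : Fin r → k),
      collision (fun _ : Fin r => m) c a =
        Ideal.span {X - C (∑ j : Fin r, C (a j) * X ^ (j : ℕ)), C ((X - C c) ^ r)} ^ m) ∧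
    ∀ {s : ℕ} (r : Fin s → ℕ) (m : (i : Fin s) → Fin (r i) → ℕ), (∃ i j, 0 < m i j) →
      ∀ (k : Type u) [Field k],
      ∃ F : MvPolynomial ((i : Fin s) × Fin (r i + 1)) k, F ≠ 0 ∧
        ∀ (c : Fin s → k) (a : (i : Fin s) → Fin (r i) → k),
          MvPolynomial.eval (parameters c a) F ≠ 0 →
          ∀ d : ℕ,
            (9 < ∑ i, r i ∧ Real.sqrt (∑ i, (r i : ℝ)) * d ≤ ∑ i, ∑ j, (m i j : ℝ)) ∨
              (∑ i, r i = 9 ∧ 3 * d < ∑ i, ∑ j, m i j) →
            ∀ P : MvPolynomial (Fin 3) k, P.IsHomogeneous d →
              (∀ i, affine P ∈ collision (m i) (c i) (a i)) → P = 0 := by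
  refine ⟨fun k _ r m c a => ?_, fun {s} r m hm k _ => ?_⟩
  · exact Pool.Agent.J6H44.UC.MI_equal r m c _
  · obtain ⟨F, hF, h⟩ := Pool.Agent.J6H44.UC.main (ι := Fin s) m hm k
    refine ⟨F, hF, fun c a hc d hd P hP hI => ?_⟩
    have e1 : (∑ i, (r i : ℝ)) = ((∑ i, r i : ℕ) : ℝ) := by push_cast; rfl
    have e2 : (∑ i, ∑ j, (m i j : ℝ)) = ((∑ i, ∑ j, m i j : ℕ) : ℝ) := by push_cast; rfl
    have hd' : Pool.Agent.J6H44.UC.Cond (∑ i, r i) (∑ i, ∑ j, m i j) d := by
      rcases hd with ⟨h1, h2⟩ | ⟨h1, h2⟩
      · rw [e1, e2] at h2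
        exact Or.inr ⟨h1, h2⟩
      · refine Or.inl ⟨h1.ge, ?_⟩
        rw [h1]
        have h3 : Real.sqrt ((9 : ℕ) : ℝ) = 3 := by
          rw [show ((9 : ℕ) : ℝ) = 3 ^ 2 by norm_num]
          exact Real.sqrt_sq (by norm_num)
        rw [h3]
        exact_mod_cast h2
    refine h c a hc d hd' P ((MvPolynomial.mem_homogeneousSubmodule _ _).2 hP) ?_
    rw [Pool.Agent.J6H44.UC.mem_jets_iff]
    exact hI

end Pool.Agent.Results.MP_cea741_ag.UnequalMultiplicities
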